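import Pool.Agent.H89.MT.Targets

/-!
# MP_34b97f_an: Euler product, upper bound
-/

open MeasureTheory ProbabilityTheory Filter Topology Finset

namespace Pool.Agent.H33.MT

open Pool.Agent.H89.MT

theorem sum_tele (N : ℕ) (hN : 1 ≤ N) :
    ∑ n ∈ Icc 2 N, (1 : ℝ) / (n * (n - 1)) = 1 - 1 / N := by
  induction N, hN using Nat.le_induction with
  | base => norm_num
  | succ N hN ih =>
    rw [Finset.sum_Icc_succ_top (by omega), ih]
    have h1 : (0 : ℝ) < N := by exact_mod_cast hN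
    push_cast
    rw [add_sub_cancel_right]
    field_simp
    ring

theorem geo_aux (x : ℝ) (hx : 1 < x) : (1 / x) ^ 2 * (1 - 1 / x)⁻¹ = 1 / (x * (x - 1)) := by
  have h1 : x - 1 ≠ 0 := by linarith
  have h2 : x ≠ 0 := by linarith
  have h3 : 1 - 1 / x = (x - 1) / x := by field_simp
  rw [h3, inv_div]
  field_simp

theorem sum_pr_le (N : ℕ) : ∑ p ∈ pr N, (1 : ℝ) / (p * (p - 1)) ≤ 1 := by
  rcases Nat.eq_zero_or_pos N with rfl | hN
  · simp [pr]
  · calc ∑ p ∈ pr N, (1 : ℝ) / (p * (p - 1)) ≤ ∑ n ∈ Icc 2 N, (1 : ℝ) / (n * (n - 1)) := by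
          refine sum_le_sum_of_subset_of_nonneg ?_ ?_
          · intro p hp
            obtain ⟨h1, h2⟩ := mem_filter.1 hp
            exact mem_Icc.2 ⟨h2.two_le, (mem_Icc.1 h1).2⟩
          · intro n hn _
            have h1 : (2 : ℝ) ≤ n := by exact_mod_cast (mem_Icc.1 hn).1
            exact div_nonneg one_pos.le (mul_nonneg (by linarith) (by linarith))
      _ = 1 - 1 / N := sum_tele N hN
      _ ≤ 1 := by
          have : (0 : ℝ) ≤ 1 / N := by positivity
          linarith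

/-- (EUL) Euler product, upper bound -/
theorem pf_EUL : T_EUL := by
  intro f hf0 hf1 hmul N
  have hpos : 0 ≤ Real.exp (SS f N + 1) := (Real.exp_pos _).le
  have h11 : f 1 = f 1 * f 1 := by
    have := hmul 1 1 one_pos one_pos (by norm_num)
    simpa using this
  rcases eq_or_ne (f 1) 0 with h0 | h0
  · have hz : ∀ n ∈ Icc 1 N, f n / n = 0 := by
      intro n hn
      have := hmul n 1 (mem_Icc.1 hn).1 one_pos (by simp)
      rw [mul_one, h0, mul_zero] at this
      rw [this, zero_div]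
    rw [sum_eq_zero hz]
    exact hpos
  have h1 : f 1 = 1 := by
    have h2 : f 1 * (f 1 - 1) = 0 := by linarith
    rcases mul_eq_zero.1 h2 with h3 | h3
    · exact absurd h3 h0
    · linarith
  set g : ℕ → ℝ := fun n => f n / n with hg
  have g0 : ∀ n, 0 ≤ g n := fun n => div_nonneg (hf0 n) (Nat.cast_nonneg n)
  have g1 : g 1 = 1 := by simp [hg, h1]
  have gmul : ∀ {m n : ℕ}, Nat.Coprime m n → g (m * n) = g m * g n := by
    intro m n h
    simp only [hg]
    rcases Nat.eq_zero_or_pos m with rfl | hm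
    · simp
    rcases Nat.eq_zero_or_pos n with rfl | hn
    · simp
    rw [hmul m n hm hn h]
    push_cast
    rw [mul_div_mul_comm]
  have gle : ∀ (p : ℕ), p.Prime → ∀ n : ℕ, g (p ^ n) ≤ (1 / (p : ℝ)) ^ n := by
    intro p hp n
    have hp0 : (0 : ℝ) < p := by exact_mod_cast hp.pos
    simp only [hg]
    push_cast
    rw [one_div, inv_pow, ← one_div]
    exact div_le_div_of_nonneg_right (hf1 _) (by positivity)
  have hgeo : ∀ p : ℕ, p.Prime → (0 : ℝ) ≤ 1 / (p : ℝ) ∧ 1 / (p : ℝ) < 1 := by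
    intro p hp
    have hp0 : (1 : ℝ) < p := by exact_mod_cast hp.one_lt
    exact ⟨by positivity, by rw [div_lt_one (by linarith)]; exact hp0⟩
  have gsum : ∀ {p : ℕ}, p.Prime → Summable fun n : ℕ => ‖g (p ^ n)‖ := by
    intro p hp
    refine Summable.of_nonneg_of_le (fun n => norm_nonneg _) (fun n => ?_)
      (summable_geometric_of_lt_one (hgeo p hp).1 (hgeo p hp).2)
    rw [Real.norm_of_nonneg (g0 _)]
    exact gle p hp n
  have hE := (EulerProduct.summable_and_hasSum_factoredNumbers_prod_filter_prime_tsum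
    g1 gmul gsum (Icc 1 N)).2
  have hE2 : HasSum (Set.indicator (Nat.factoredNumbers (Icc 1 N)) g)
      (∏ p ∈ Icc 1 N with p.Prime, ∑' n : ℕ, g (p ^ n)) :=
    (hasSum_subtype_iff_indicator (f := g)).1 hE
  have h2 : ∑ n ∈ Icc 1 N, f n / n ≤ ∏ p ∈ Icc 1 N with p.Prime, ∑' n : ℕ, g (p ^ n) := by
    have h3 := sum_le_hasSum (Icc 1 N) (fun n _ => Set.indicator_nonneg (fun n _ => g0 n) n) hE2
    refine le_trans (le_of_eq (sum_congr rfl fun n hn => ?_)) h3
    rw [Set.indicator_of_mem]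
    rw [mem_Icc] at hn
    refine Nat.mem_factoredNumbers_of_primeFactors_subset (by omega) fun p hp => ?_
    have hp2 := Nat.prime_of_mem_primeFactors hp
    exact mem_Icc.2 ⟨hp2.one_lt.le,
      (Nat.le_of_dvd (by omega) (Nat.dvd_of_mem_primeFactors hp)).trans hn.2⟩
  have hfac : ∀ p ∈ (Icc 1 N).filter Nat.Prime, ∑' n : ℕ, g (p ^ n) ≤
      Real.exp (f p / p + 1 / (p * (p - 1))) := by
    intro p hp
    have hp2 := (mem_filter.1 hp).2
    have hp0 : (1 : ℝ) < p := by exact_mod_cast hp2.one_lt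
    have hs : Summable fun n : ℕ => g (p ^ n) := (gsum hp2).of_norm
    have hs2 : Summable fun n : ℕ => g (p ^ (n + 2)) := (summable_nat_add_iff 2).2 hs
    have e1 := hs.sum_add_tsum_nat_add 2
    have e2 : ∑' n : ℕ, g (p ^ (n + 2)) ≤ 1 / (p * (p - 1)) := by
      have hq := summable_geometric_of_lt_one (hgeo p hp2).1 (hgeo p hp2).2
      have h4 : ∑' n : ℕ, g (p ^ (n + 2)) ≤ ∑' n : ℕ, (1 / (p : ℝ)) ^ (n + 2) :=
        hs2.tsum_le_tsum (fun n => gle p hp2 _) ((summable_nat_add_iff 2).2 hq)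
      refine h4.trans (le_of_eq ?_)
      have h5 : ∀ n : ℕ, (1 / (p : ℝ)) ^ (n + 2) = (1 / (p : ℝ)) ^ 2 * (1 / (p : ℝ)) ^ n := by
        intro n; ring
      rw [tsum_congr h5, tsum_mul_left, tsum_geometric_of_lt_one (hgeo p hp2).1 (hgeo p hp2).2]
      exact geo_aux p hp0
    rw [← e1]
    rw [sum_range_succ, sum_range_one, pow_zero, pow_one, g1]
    refine le_trans ?_ (Real.add_one_le_exp _)
    have e3 : g p = f p / p := rfl
    rw [e3]
    linarith
  calc ∑ n ∈ Icc 1 N, f n / n ≤ ∏ p ∈ Icc 1 N with p.Prime, ∑' n : ℕ, g (p ^ n) := h2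
    _ ≤ ∏ p ∈ Icc 1 N with p.Prime, Real.exp (f p / p + 1 / (p * (p - 1))) :=
        prod_le_prod (fun p _ => tsum_nonneg fun n => g0 _) hfac
    _ = Real.exp (∑ p ∈ pr N, (f p / p + 1 / (p * (p - 1)))) := by
        rw [Real.exp_sum]; rfl
    _ ≤ Real.exp (SS f N + 1) := by
        refine Real.exp_le_exp.2 ?_
        rw [sum_add_distrib]
        have := sum_pr_le N
        unfold SS
        linarith

end Pool.Agent.H33.MT
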