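import Pool.Agent.H33.MT.EUL

/-!
# MP_34b97f_an: exponential moments of the number of common prime factors
-/

open MeasureTheory ProbabilityTheory Filter Topology Finset

namespace Pool.Agent.H33.MT

open Pool.Agent.H89.MT

theorem log_shift (a N : ℕ) (hN : 3 ≤ N) :
    1 + Real.log ((N : ℝ) + a) ≤ (2 + Real.log (1 + a)) * Real.log N := by
  have ha0 : (0 : ℝ) ≤ a := Nat.cast_nonneg a
  have hN3 : (3 : ℝ) ≤ N := by exact_mod_cast hN
  have hla : 0 ≤ Real.log (1 + a) := Real.log_nonneg (by linarith)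
  have hlogN : 1 ≤ Real.log N := by
    rw [Real.le_log_iff_exp_le (by linarith)]
    have := Real.exp_one_lt_d9
    linarith
  have h5 : (N : ℝ) + a ≤ N * (1 + a) := by nlinarith
  have h6 : Real.log ((N : ℝ) + a) ≤ Real.log (N * (1 + a)) :=
    Real.log_le_log (by linarith) h5
  rw [Real.log_mul (by linarith) (by linarith)] at h6
  nlinarith

/-- (GCD) exponential moments of the number of common prime factors -/
theorem pf_GCD (hDIV : T_DIV) : T_GCD := by
  intro K a b hK
  have hK0 : 0 ≤ K - 1 := by linarith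
  refine ⟨((a : ℝ) + 1) * (b + 1) * (2 + Real.log (1 + a)) * (2 + Real.log (1 + b)) *
    Real.exp (K - 1), fun N hN => ?_⟩
  set Q : Finset ℕ := pr (N + a + b) with hQ
  have hprime : ∀ p ∈ Q, p.Prime := fun p hp => (mem_filter.1 hp).2
  -- the bound for one pair
  have h1 : ∀ n ∈ Icc 1 N, ∀ m ∈ Icc 1 N, K ^ nu (n + a) (m + b) / ((n : ℝ) * m) ≤
      ∑ D ∈ Q.powerset, (K - 1) ^ D.card * ((if (∏ p ∈ D, p) ∣ n + a then (1 : ℝ) / n else 0) *
        (if (∏ p ∈ D, p) ∣ m + b then (1 : ℝ) / m else 0)) := by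
    intro n hn m hm
    rw [mem_Icc] at hn hm
    set S : Finset ℕ := (n + a).primeFactors ∩ (m + b).primeFactors with hS
    have hSQ : S ⊆ Q := by
      intro p hp
      have hp1 := (mem_inter.1 hp).1
      have hp2 := Nat.prime_of_mem_primeFactors hp1
      have hp3 := Nat.le_of_dvd (by omega) (Nat.dvd_of_mem_primeFactors hp1)
      exact mem_filter.2 ⟨mem_Icc.2 ⟨hp2.one_lt.le, by omega⟩, hp2⟩
    have e1 : K ^ nu (n + a) (m + b) = ∑ D ∈ S.powerset, (K - 1) ^ D.card := by
      have e := Finset.sum_pow_mul_eq_add_pow (K - 1) 1 S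
      rw [sub_add_cancel] at e
      unfold nu
      rw [← hS, ← e]
      exact sum_congr rfl fun D _ => by rw [one_pow, mul_one]
    rw [e1, sum_div]
    refine le_trans (sum_le_sum fun D hD => ?_) (sum_le_sum_of_subset_of_nonneg
      (powerset_mono.2 hSQ) fun D _ _ => ?_)
    · have hDS := mem_powerset.1 hD
      have d1 : (∏ p ∈ D, p) ∣ n + a := Finset.prod_primes_dvd _
        (fun p hp => (Nat.prime_of_mem_primeFactors (mem_inter.1 (hDS hp)).1).prime)
        (fun p hp => Nat.dvd_of_mem_primeFactors (mem_inter.1 (hDS hp)).1)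
      have d2 : (∏ p ∈ D, p) ∣ m + b := Finset.prod_primes_dvd _
        (fun p hp => (Nat.prime_of_mem_primeFactors (mem_inter.1 (hDS hp)).1).prime)
        (fun p hp => Nat.dvd_of_mem_primeFactors (mem_inter.1 (hDS hp)).2)
      rw [if_pos d1, if_pos d2]
      refine le_of_eq ?_
      rw [div_mul_div_comm, one_mul, mul_one_div]
    · refine mul_nonneg (pow_nonneg hK0 _) (mul_nonneg ?_ ?_) <;>
      · split_ifs
        · positivity
        · exact le_rfl
  -- the constants
  set A : ℝ := (2 + Real.log (1 + a)) * Real.log N with hA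
  set B : ℝ := (2 + Real.log (1 + b)) * Real.log N with hB
  have hdiv : ∀ c d : ℕ, 1 ≤ d →
      ∑ n ∈ Icc 1 N, (if d ∣ n + c then (1 : ℝ) / n else 0) ≤
        ((c : ℝ) + 1) / d * ((2 + Real.log (1 + c)) * Real.log N) := by
    intro c d hd
    rw [← sum_filter]
    refine (hDIV c d N hd).trans (mul_le_mul_of_nonneg_left (log_shift c N hN) ?_)
    positivity
  have h2 : ∑ D ∈ Q.powerset, (K - 1) ^ D.card * (1 / ((∏ p ∈ D, p : ℕ) : ℝ) ^ 2) ≤
      Real.exp (K - 1) := by
    have e1 : ∑ D ∈ Q.powerset, (K - 1) ^ D.card * (1 / ((∏ p ∈ D, p : ℕ) : ℝ) ^ 2) =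
        ∏ p ∈ Q, (1 + (K - 1) / (p : ℝ) ^ 2) := by
      rw [prod_one_add]
      refine sum_congr rfl fun D _ => ?_
      rw [prod_div_distrib, prod_const, prod_pow]
      push_cast
      rw [mul_one_div]
    rw [e1]
    calc ∏ p ∈ Q, (1 + (K - 1) / (p : ℝ) ^ 2)
        ≤ ∏ p ∈ Q, Real.exp ((K - 1) * (1 / (p * (p - 1)))) := by
          refine prod_le_prod (fun p _ => by positivity) fun p hp => ?_
          have hp2 : (2 : ℝ) ≤ p := by exact_mod_cast (hprime p hp).two_le
          have h3 : 1 / (p : ℝ) ^ 2 ≤ 1 / (p * (p - 1)) :=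
            one_div_le_one_div_of_le (by nlinarith) (by nlinarith)
          have h4 := Real.add_one_le_exp ((K - 1) * (1 / ((p : ℝ) * (p - 1))))
          have h5 := mul_le_mul_of_nonneg_left h3 hK0
          have h6 : (K - 1) / (p : ℝ) ^ 2 = (K - 1) * (1 / (p : ℝ) ^ 2) := by ring
          rw [h6]
          linarith
      _ = Real.exp ((K - 1) * ∑ p ∈ Q, 1 / ((p : ℝ) * (p - 1))) := by
          rw [← Real.exp_sum, mul_sum]
      _ ≤ Real.exp (K - 1) := by
          refine Real.exp_le_exp.2 ?_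
          have := mul_le_mul_of_nonneg_left (sum_pr_le (N + a + b)) hK0
          rw [mul_one] at this
          exact this
  calc ∑ n ∈ Icc 1 N, ∑ m ∈ Icc 1 N, K ^ nu (n + a) (m + b) / ((n : ℝ) * m)
      ≤ ∑ n ∈ Icc 1 N, ∑ m ∈ Icc 1 N, ∑ D ∈ Q.powerset, (K - 1) ^ D.card *
        ((if (∏ p ∈ D, p) ∣ n + a then (1 : ℝ) / n else 0) *
        (if (∏ p ∈ D, p) ∣ m + b then (1 : ℝ) / m else 0)) :=
        sum_le_sum fun n hn => sum_le_sum fun m hm => h1 n hn m hm
    _ = ∑ D ∈ Q.powerset, (K - 1) ^ D.card *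
        ((∑ n ∈ Icc 1 N, if (∏ p ∈ D, p) ∣ n + a then (1 : ℝ) / n else 0) *
        (∑ m ∈ Icc 1 N, if (∏ p ∈ D, p) ∣ m + b then (1 : ℝ) / m else 0)) := by
        have e2 : ∀ n ∈ Icc 1 N, (∑ m ∈ Icc 1 N, ∑ D ∈ Q.powerset, (K - 1) ^ D.card *
            ((if (∏ p ∈ D, p) ∣ n + a then (1 : ℝ) / n else 0) *
            (if (∏ p ∈ D, p) ∣ m + b then (1 : ℝ) / m else 0))) =
            ∑ D ∈ Q.powerset, ∑ m ∈ Icc 1 N, (K - 1) ^ D.card *
            ((if (∏ p ∈ D, p) ∣ n + a then (1 : ℝ) / n else 0) *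
            (if (∏ p ∈ D, p) ∣ m + b then (1 : ℝ) / m else 0)) := fun n _ => sum_comm
        rw [sum_congr rfl e2, sum_comm]
        refine sum_congr rfl fun D _ => ?_
        rw [sum_mul_sum, mul_sum]
        refine sum_congr rfl fun n _ => ?_
        rw [mul_sum]
    _ ≤ ∑ D ∈ Q.powerset, (K - 1) ^ D.card *
        ((((a : ℝ) + 1) / ((∏ p ∈ D, p : ℕ) : ℝ) * A) *
        (((b : ℝ) + 1) / ((∏ p ∈ D, p : ℕ) : ℝ) * B)) := by
        refine sum_le_sum fun D hD => mul_le_mul_of_nonneg_left ?_ (pow_nonneg hK0 _)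
        have hd : 1 ≤ ∏ p ∈ D, p := Nat.one_le_iff_ne_zero.2 (prod_ne_zero_iff.2 fun p hp =>
          (hprime p (mem_powerset.1 hD hp)).ne_zero)
        refine mul_le_mul (hdiv a _ hd) (hdiv b _ hd) ?_ ?_
        · refine sum_nonneg fun m _ => ?_
          split_ifs
          · positivity
          · exact le_rfl
        · refine le_trans ?_ (hdiv a _ hd)
          refine sum_nonneg fun m _ => ?_
          split_ifs
          · positivity
          · exact le_rfl
    _ = (((a : ℝ) + 1) * (b + 1) * A * B) *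
        ∑ D ∈ Q.powerset, (K - 1) ^ D.card * (1 / ((∏ p ∈ D, p : ℕ) : ℝ) ^ 2) := by
        rw [mul_sum]
        refine sum_congr rfl fun D _ => ?_
        ring
    _ ≤ (((a : ℝ) + 1) * (b + 1) * A * B) * Real.exp (K - 1) := by
        refine mul_le_mul_of_nonneg_left h2 ?_
        have ha0 : (0 : ℝ) ≤ a := Nat.cast_nonneg a
        have hb0 : (0 : ℝ) ≤ b := Nat.cast_nonneg b
        have hN3 : (3 : ℝ) ≤ N := by exact_mod_cast hN
        have hlN : 0 ≤ Real.log N := Real.log_nonneg (by linarith)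
        have hla : 0 ≤ Real.log (1 + a) := Real.log_nonneg (by linarith)
        have hlb : 0 ≤ Real.log (1 + b) := Real.log_nonneg (by linarith)
        positivity
    _ = ((a : ℝ) + 1) * (b + 1) * (2 + Real.log (1 + a)) * (2 + Real.log (1 + b)) *
      Real.exp (K - 1) * Real.log N ^ 2 := by
        rw [hA, hB]; ring

end Pool.Agent.H33.MT
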