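import Pool.Agent.H89.MT.Targets

/-!
# MP_34b97f_an: numbers with few prime factors
-/

open MeasureTheory ProbabilityTheory Filter Topology Finset

namespace Pool.Agent.H33.MT

open Pool.Agent.H89.MT

theorem om_mul (w : ℕ → ℝ) (m n : ℕ) (h : m.Coprime n) :
    om w (m * n) = om w m + om w n := by
  have key : ∀ m n p : ℕ, m.Coprime n → p ∈ m.primeFactors → (p ^ 2 ∣ m * n ↔ p ^ 2 ∣ m) := by
    intro m n p h hp
    constructor
    · intro h1
      refine Nat.Coprime.dvd_of_dvd_mul_right ?_ h1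
      exact Nat.Coprime.pow_left 2 (h.coprime_dvd_left (Nat.dvd_of_mem_primeFactors hp))
    · intro h1
      exact h1.mul_right n
  unfold om
  rw [h.primeFactors_mul, filter_union, sum_union]
  · congr 1
    · refine sum_congr (filter_congr fun p hp => ?_) fun _ _ => rfl
      rw [key m n p h hp]
    · refine sum_congr (filter_congr fun p hp => ?_) fun _ _ => rfl
      rw [mul_comm m n, key n m p h.symm hp]
  · exact disjoint_filter_filter h.disjoint_primeFactors

theorem om_prime (w : ℕ → ℝ) (p : ℕ) (hp : p.Prime) : om w p = w p := by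
  unfold om
  rw [hp.primeFactors, filter_singleton, if_pos, sum_singleton]
  intro h
  have h1 := Nat.le_of_dvd hp.pos h
  have h2 := hp.two_le
  nlinarith

theorem om_nonneg (w : ℕ → ℝ) (hw : ∀ p, 0 ≤ w p) (n : ℕ) : 0 ≤ om w n :=
  sum_nonneg fun p _ => hw p

theorem exp_aux (w : ℝ) (h0 : 0 ≤ w) (h1 : w ≤ 1) : Real.exp (-(2 * w)) ≤ 1 - w / 2 := by
  have h2 := Real.add_one_le_exp (2 * w)
  have h3 : Real.exp (-(2 * w)) * Real.exp (2 * w) = 1 := by
    rw [← Real.exp_add]; simp
  have h4 := Real.exp_pos (-(2 * w))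
  nlinarith [mul_le_mul_of_nonneg_left h2 h4.le, mul_nonneg h0 h4.le]

/-- (OM) numbers with few prime factors -/
theorem pf_OM (hMERT : T_MERT) (hEUL : T_EUL) : T_OM := by
  intro a
  obtain ⟨C, hC⟩ := hMERT
  have hla : 0 ≤ Real.log (1 + a) := Real.log_nonneg (by
    have : (0 : ℝ) ≤ a := Nat.cast_nonneg a
    linarith)
  refine ⟨((a : ℝ) + 1) * Real.exp (C + 1) * (1 + Real.log (1 + a)), by positivity, ?_⟩
  intro w hw0 hw1 N hN
  set f : ℕ → ℝ := fun n => Real.exp (-(2 * om w n)) with hf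
  have hE := hEUL f (fun n => (Real.exp_pos _).le) (fun n => by
    simp only [hf]
    rw [Real.exp_le_one_iff]
    have := om_nonneg w hw0 n
    linarith) (fun m n _ _ h => by
    simp only [hf]
    rw [om_mul w m n h, ← Real.exp_add]
    congr 1
    ring) (N + a)
  have ha0 : (0 : ℝ) ≤ a := Nat.cast_nonneg a
  have h1 : ∑ n ∈ Icc 1 N, Real.exp (-(2 * om w (n + a))) / n ≤
      ((a : ℝ) + 1) * ∑ m ∈ Icc 1 (N + a), f m / m := by
    have h2 : ∑ n ∈ Icc 1 N, f (n + a) / ((n + a : ℕ) : ℝ) ≤ ∑ m ∈ Icc 1 (N + a), f m / m := by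
      have h3 : ∑ n ∈ Icc 1 N, f (n + a) / ((n + a : ℕ) : ℝ) =
          ∑ m ∈ (Icc 1 N).image (fun n => n + a), f m / m := by
        rw [sum_image]
        intro x _ y _ hxy
        exact Nat.add_right_cancel hxy
      rw [h3]
      refine sum_le_sum_of_subset_of_nonneg ?_ fun m _ _ =>
        div_nonneg (Real.exp_pos _).le (Nat.cast_nonneg m)
      intro m hm
      obtain ⟨n, hn, rfl⟩ := mem_image.1 hm
      rw [mem_Icc] at hn ⊢
      omega
    refine le_trans ?_ (mul_le_mul_of_nonneg_left h2 (by linarith))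
    rw [mul_sum]
    refine sum_le_sum fun n hn => ?_
    have hn1 : (1 : ℝ) ≤ n := by exact_mod_cast (mem_Icc.1 hn).1
    have h4 : (1 : ℝ) / n ≤ ((a : ℝ) + 1) / ((n + a : ℕ) : ℝ) := by
      push_cast
      rw [div_le_div_iff₀ (by linarith) (by linarith)]
      nlinarith
    calc Real.exp (-(2 * om w (n + a))) / n = f (n + a) * (1 / n) := by
          simp only [hf]; ring
      _ ≤ f (n + a) * (((a : ℝ) + 1) / ((n + a : ℕ) : ℝ)) :=
          mul_le_mul_of_nonneg_left h4 (Real.exp_pos _).le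
      _ = ((a : ℝ) + 1) * (f (n + a) / ((n + a : ℕ) : ℝ)) := by ring
  have hSS1 : SS f (N + a) ≤ SS (fun _ => 1) (N + a) - SS w (N + a) / 2 := by
    unfold SS
    rw [sum_div, ← sum_sub_distrib]
    refine sum_le_sum fun p hp => ?_
    have hp2 := (mem_filter.1 hp).2
    have hp0 : (0 : ℝ) < p := by exact_mod_cast hp2.pos
    have h5 := exp_aux (w p) (hw0 p) (hw1 p)
    have h6 : f p ≤ 1 - w p / 2 := by
      simp only [hf]
      rw [om_prime w p hp2]
      exact h5
    calc f p / p ≤ (1 - w p / 2) / p := div_le_div_of_nonneg_right h6 hp0.le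
      _ = 1 / p - w p / p / 2 := by ring
  have hSS2 : SS w N ≤ SS w (N + a) := by
    unfold SS
    refine sum_le_sum_of_subset_of_nonneg ?_ fun p _ _ => div_nonneg (hw0 p) (Nat.cast_nonneg p)
    intro p hp
    obtain ⟨h5, h6⟩ := mem_filter.1 hp
    rw [mem_Icc] at h5
    exact mem_filter.2 ⟨mem_Icc.2 (by omega), h6⟩
  have hM := hC (N + a) (by omega)
  have hN3 : (3 : ℝ) ≤ N := by exact_mod_cast hN
  have hlogN : 1 ≤ Real.log N := by
    rw [Real.le_log_iff_exp_le (by linarith)]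
    have := Real.exp_one_lt_d9
    linarith
  have hlogM : 0 < Real.log ((N + a : ℕ) : ℝ) := Real.log_pos (by
    push_cast; linarith)
  have hlog : Real.log ((N + a : ℕ) : ℝ) ≤ (1 + Real.log (1 + a)) * Real.log N := by
    have h5 : ((N + a : ℕ) : ℝ) ≤ N * (1 + a) := by
      push_cast
      nlinarith
    have h6 : Real.log ((N + a : ℕ) : ℝ) ≤ Real.log (N * (1 + a)) :=
      Real.log_le_log (by push_cast; linarith) h5
    rw [Real.log_mul (by linarith) (by linarith)] at h6
    nlinarith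
  have h7 : Real.exp (SS f (N + a) + 1) ≤ Real.exp (C + 1) * Real.log ((N + a : ℕ) : ℝ) *
      Real.exp (-(SS w N / 2)) := by
    have h8 : SS f (N + a) + 1 ≤ (C + 1) + Real.log (Real.log ((N + a : ℕ) : ℝ)) +
        -(SS w N / 2) := by linarith
    refine (Real.exp_le_exp.2 h8).trans (le_of_eq ?_)
    rw [Real.exp_add, Real.exp_add, Real.exp_log hlogM]
  calc ∑ n ∈ Icc 1 N, Real.exp (-(2 * om w (n + a))) / n
      ≤ ((a : ℝ) + 1) * ∑ m ∈ Icc 1 (N + a), f m / m := h1
    _ ≤ ((a : ℝ) + 1) * (Real.exp (C + 1) * Real.log ((N + a : ℕ) : ℝ) *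
      Real.exp (-(SS w N / 2))) := mul_le_mul_of_nonneg_left (hE.trans h7) (by linarith)
    _ ≤ ((a : ℝ) + 1) * (Real.exp (C + 1) * ((1 + Real.log (1 + a)) * Real.log N) *
      Real.exp (-(SS w N / 2))) := by
        refine mul_le_mul_of_nonneg_left ?_ (by linarith)
        refine mul_le_mul_of_nonneg_right ?_ (Real.exp_pos _).le
        exact mul_le_mul_of_nonneg_left hlog (Real.exp_pos _).le
    _ = ((a : ℝ) + 1) * Real.exp (C + 1) * (1 + Real.log (1 + a)) * Real.log N *
      Real.exp (-(SS w N / 2)) := by ring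

end Pool.Agent.H33.MT
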